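import Mathlib

/-!
# MP_4bc625_an: the potential for stretched exponential decay
-/

set_option autoImplicit false

namespace Pool.Agent.H10.XR

open Filter

/-- The potential of the circle with `|x| ^ 2 = n` and least gcd `m`. -/
noncomputable def G (β γ n m : ℝ) : ℝ := n ^ β - n ^ γ * Real.log m

lemma ev_pow {p q : ℝ} (h : p < q) (C : ℝ) : ∀ᶠ x : ℝ in atTop, C * x ^ p ≤ x ^ q := by
  filter_upwards [(tendsto_rpow_atTop (sub_pos.2 h)).eventually_ge_atTop C,
    eventually_gt_atTop (0 : ℝ)] with x h1 h2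
  calc C * x ^ p ≤ x ^ (q - p) * x ^ p := mul_le_mul_of_nonneg_right h1 (by positivity)
    _ = x ^ q := by rw [← Real.rpow_add h2, sub_add_cancel]

lemma ev_exp {p q : ℝ} (hq : 0 < q) (hpq : p < q) (K : ℝ) {δ : ℝ} (hδ : 0 < δ) :
    ∀ᶠ x : ℝ in atTop, K * x * Real.exp (x ^ p - x ^ q) ≤ δ := by
  have h2 : Tendsto (fun x : ℝ => |K| * (x * Real.exp (-(1 / 2 * x ^ q)))) atTop (nhds 0) := by
    have h3 := (tendsto_rpow_mul_exp_neg_mul_atTop_nhds_zero (1 / q) (1 / 2)
      (by norm_num)).comp (tendsto_rpow_atTop hq)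
    have h4 := h3.const_mul |K|
    rw [mul_zero] at h4
    refine h4.congr' ?_
    filter_upwards [eventually_ge_atTop (0 : ℝ)] with x hx
    simp only [Function.comp_apply]
    rw [← Real.rpow_mul hx, mul_one_div_cancel hq.ne', Real.rpow_one]
    congr 3
    ring
  filter_upwards [h2.eventually (gt_mem_nhds hδ), ev_pow hpq 2, eventually_ge_atTop (0 : ℝ)]
    with x h3 h4 h5
  have h6 : Real.exp (x ^ p - x ^ q) ≤ Real.exp (-(1 / 2 * x ^ q)) :=
    Real.exp_le_exp.2 (by linarith)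
  calc K * x * Real.exp (x ^ p - x ^ q) ≤ |K| * x * Real.exp (x ^ p - x ^ q) := by
        gcongr
        exact le_abs_self K
    _ ≤ |K| * x * Real.exp (-(1 / 2 * x ^ q)) := by gcongr
    _ = |K| * (x * Real.exp (-(1 / 2 * x ^ q))) := by ring
    _ ≤ δ := h3.le

/-- A lower bound for `(1 + t) ^ β - 1`. -/
lemma pow_gain {β s t : ℝ} (hβ : 0 < β) (hs : 0 ≤ s) (hs1 : s ≤ 1) (hst : s ≤ t) :
    min β 1 / 2 * s ≤ (1 + t) ^ β - 1 := by
  have hb : 0 < min β 1 := lt_min hβ one_pos
  have h1 : (1 + s) ^ (min β 1) ≤ (1 + t) ^ β := by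
    calc (1 + s) ^ (min β 1) ≤ (1 + t) ^ (min β 1) :=
          Real.rpow_le_rpow (by linarith) (by linarith) hb.le
      _ ≤ (1 + t) ^ β := Real.rpow_le_rpow_of_exponent_le (by linarith) (min_le_left _ _)
  set b := min β 1 with hbdef
  have hb1 : b ≤ 1 := min_le_right _ _
  have hs0 : 0 < 1 + s := by linarith
  have h2 : ((1 + s)⁻¹) ^ b ≤ 1 - b * (s / (1 + s)) := by
    have h3 : (1 + s)⁻¹ = 1 + -(s / (1 + s)) := by field_simp; ring
    have h4 : s / (1 + s) ≤ 1 := by
      rw [div_le_one hs0]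
      linarith
    rw [h3]
    calc (1 + -(s / (1 + s))) ^ b ≤ 1 + b * -(s / (1 + s)) :=
          rpow_one_add_le_one_add_mul_self (by linarith) hb.le hb1
      _ = _ := by ring
  have h5 : 0 < (1 + s) ^ b := Real.rpow_pos_of_pos hs0 _
  have h6 : ((1 + s)⁻¹) ^ b * (1 + s) ^ b = 1 := by
    rw [← Real.mul_rpow (by positivity) hs0.le, inv_mul_cancel₀ hs0.ne', Real.one_rpow]
  have h7 : s / 2 ≤ s / (1 + s) := by
    rw [div_le_div_iff₀ (by norm_num) hs0]
    nlinarith
  have h8 : 1 ≤ (1 - b * (s / (1 + s))) * (1 + s) ^ b := by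
    calc (1 : ℝ) = ((1 + s)⁻¹) ^ b * (1 + s) ^ b := h6.symm
      _ ≤ _ := mul_le_mul_of_nonneg_right h2 h5.le
  have h9 : 0 ≤ b * (s / (1 + s)) := by positivity
  have h10 : 1 ≤ (1 + s) ^ b := by nlinarith
  have h11 : b * (s / 2) ≤ b * (s / (1 + s)) := mul_le_mul_of_nonneg_left h7 hb.le
  nlinarith [mul_le_mul h11 h10 (by norm_num) h9]

/-- A large relative increment of the norm increases the potential. -/
lemma gainA {β γ r : ℝ} (hγ : 0 < γ) (hr : 0 ≤ r) (h : γ + r < β) :
    ∀ᶠ n : ℝ in atTop, ∀ t m m' : ℝ, n ^ (-r) ≤ t → 1 ≤ m → 1 ≤ m' → m' ^ 2 ≤ n * (1 + t) →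
      G β γ n m + n ^ γ ≤ G β γ (n * (1 + t)) m' := by
  set ε : ℝ := (β - γ - r) / 2 with hε
  have hε0 : 0 < ε := by rw [hε]; linarith
  have hβ : 0 < β := by linarith
  set c : ℝ := min β 1 / 2 with hc
  have hc0 : 0 < c := by
    have : 0 < min β 1 := lt_min hβ one_pos
    positivity
  filter_upwards [eventually_ge_atTop (1 : ℝ), ev_pow (show γ + ε < β by linarith) (1 / ε),
    ev_pow (show γ + ε < β - r by linarith) (4 / c * (1 / (2 * ε))),
    ev_pow (show γ < β - r by linarith) (4 / c)] with n hn e1 e2 e3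
  intro t m m' ht hm hm' hmn
  have hn0 : 0 < n := by linarith
  have hs0 : 0 < n ^ (-r) := Real.rpow_pos_of_pos hn0 _
  have hs1 : n ^ (-r) ≤ 1 := Real.rpow_le_one_of_one_le_of_nonpos hn (by linarith)
  have ht0 : 0 < t := lt_of_lt_of_le hs0 ht
  have hu := pow_gain hβ hs0.le hs1 ht
  rw [← hc] at hu
  set u : ℝ := (1 + t) ^ β - 1 with hudef
  have hu0 : 0 ≤ u := le_trans (by positivity) hu
  set X : ℝ := n ^ (γ + ε) / (2 * ε) with hX
  have hN : 0 < n * (1 + t) := by positivity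
  have h1 : Real.log m' ≤ (n * (1 + t)) ^ ε / (2 * ε) := by
    have h2 : 2 * Real.log m' ≤ Real.log (n * (1 + t)) := by
      have : Real.log (m' ^ 2) ≤ Real.log (n * (1 + t)) :=
        Real.log_le_log (by positivity) hmn
      rwa [Real.log_pow] at this
    have h3 := Real.log_le_rpow_div hN.le hε0
    rw [mul_comm 2 ε, ← div_div]
    linarith
  have h4 : (n * (1 + t)) ^ γ * Real.log m' ≤ X * (1 + u) := by
    calc (n * (1 + t)) ^ γ * Real.log m' ≤ (n * (1 + t)) ^ γ * ((n * (1 + t)) ^ ε / (2 * ε)) :=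
          mul_le_mul_of_nonneg_left h1 (by positivity)
      _ = (n * (1 + t)) ^ (γ + ε) / (2 * ε) := by rw [Real.rpow_add hN]; ring
      _ = X * (1 + t) ^ (γ + ε) := by rw [Real.mul_rpow hn0.le (by linarith), hX]; ring
      _ ≤ X * (1 + t) ^ β := by
          apply mul_le_mul_of_nonneg_left _ (by positivity)
          exact Real.rpow_le_rpow_of_exponent_le (by linarith) (by linarith)
      _ = X * (1 + u) := by rw [hudef]; ring
  have h5 : (n * (1 + t)) ^ β = n ^ β * (1 + u) := by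
    rw [Real.mul_rpow hn0.le (by linarith), hudef]
    ring
  have h6 : 0 ≤ n ^ γ * Real.log m := mul_nonneg (by positivity) (Real.log_nonneg hm)
  have h7 : 2 * X ≤ n ^ β := by
    calc 2 * X = 1 / ε * n ^ (γ + ε) := by rw [hX]; field_simp
      _ ≤ n ^ β := e1
  have h8 : n ^ (-r) * n ^ β = n ^ (β - r) := by
    rw [← Real.rpow_add hn0]
    congr 1
    ring
  have h9 : X ≤ c / 4 * n ^ (β - r) := by
    have : 4 / c * X ≤ n ^ (β - r) := by
      calc 4 / c * X = 4 / c * (1 / (2 * ε)) * n ^ (γ + ε) := by rw [hX]; ring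
        _ ≤ n ^ (β - r) := e2
    calc X = c / 4 * (4 / c * X) := by field_simp
      _ ≤ _ := mul_le_mul_of_nonneg_left this (by positivity)
  have h10 : n ^ γ ≤ c / 4 * n ^ (β - r) := by
    calc n ^ γ = c / 4 * (4 / c * n ^ γ) := by field_simp
      _ ≤ _ := mul_le_mul_of_nonneg_left e3 (by positivity)
  have h11 : c * n ^ (-r) * (n ^ β / 2) ≤ u * (n ^ β - X) :=
    mul_le_mul hu (by linarith) (by positivity) hu0
  have h12 : c * n ^ (-r) * (n ^ β / 2) = c / 2 * n ^ (β - r) := by rw [← h8]; ring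
  unfold G
  rw [h5]
  nlinarith

/-- A small relative increment of the norm which decreases the least gcd increases the
potential. -/
lemma gainB {β γ η : ℝ} (hγ : 0 < γ) (hγβ : γ < β) (hη : 0 < η) (L : ℝ) :
    ∀ᶠ n : ℝ in atTop, ∀ t m m' : ℝ, 0 ≤ t → 1 ≤ m → m ^ 2 ≤ n → 1 ≤ m' →
      m' ≤ L * n ^ (-η) * m → G β γ n m + n ^ γ ≤ G β γ (n * (1 + t)) m' := by
  have hβ : 0 < β := by linarith
  filter_upwards [eventually_ge_atTop (1 : ℝ), ev_pow (show (0 : ℝ) < η from hη) |L|,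
    ev_pow (show γ + (β - γ) / 2 < β by linarith) (1 / (β - γ)),
    (Real.tendsto_log_atTop.const_mul_atTop hη).eventually_ge_atTop (Real.log (|L| + 1) + 1)]
    with n hn e1 e2 e3
  intro t m m' ht hm hmn hm' hmm
  have hn0 : 0 < n := by linarith
  have hpos : 0 < L * n ^ (-η) * m := lt_of_lt_of_le (by linarith) hmm
  have hL0 : 0 < L := by
    by_contra hcon
    have h1 : L * n ^ (-η) * m ≤ 0 := by
      have : L * n ^ (-η) ≤ 0 :=
        mul_nonpos_of_nonpos_of_nonneg (not_lt.1 hcon) (Real.rpow_nonneg hn0.le _)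
      exact mul_nonpos_of_nonpos_of_nonneg this (by linarith)
    linarith
  rw [Real.rpow_zero, mul_one, abs_of_pos hL0] at e1
  have h1 : L * n ^ (-η) ≤ 1 := by
    rw [Real.rpow_neg hn0.le, ← div_eq_mul_inv, div_le_one (by positivity)]
    exact e1
  have h2 : m' ≤ m := hmm.trans (mul_le_of_le_one_left (by linarith) h1)
  have h3 : Real.log m' ≤ Real.log m := Real.log_le_log (by linarith) h2
  have h4 : Real.log m ≤ n ^ ((β - γ) / 2) / (β - γ) := by
    have h5 : 2 * Real.log m ≤ Real.log n := by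
      have : Real.log (m ^ 2) ≤ Real.log n := Real.log_le_log (by positivity) hmn
      rwa [Real.log_pow] at this
    have h6 := Real.log_le_rpow_div hn0.le (show 0 < (β - γ) / 2 by linarith)
    have h7 : n ^ ((β - γ) / 2) / ((β - γ) / 2) = 2 * (n ^ ((β - γ) / 2) / (β - γ)) := by
      have : β - γ ≠ 0 := by linarith
      field_simp
    linarith
  have h5 : n ^ γ * Real.log m' ≤ n ^ β := by
    calc n ^ γ * Real.log m' ≤ n ^ γ * (n ^ ((β - γ) / 2) / (β - γ)) :=
          mul_le_mul_of_nonneg_left (h3.trans h4) (by positivity)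
      _ = 1 / (β - γ) * n ^ (γ + (β - γ) / 2) := by rw [Real.rpow_add hn0]; ring
      _ ≤ n ^ β := e2
  have h6 : Real.log m' ≤ Real.log L - η * Real.log n + Real.log m := by
    have h7 : Real.log m' ≤ Real.log (L * n ^ (-η) * m) := Real.log_le_log (by linarith) hmm
    rw [Real.log_mul (by positivity) (by linarith), Real.log_mul (by linarith) (by positivity),
      Real.log_rpow hn0] at h7
    linarith
  have h7 : Real.log L ≤ Real.log (|L| + 1) :=
    Real.log_le_log hL0 (by rw [abs_of_pos hL0]; linarith)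
  set u : ℝ := (1 + t) ^ β - 1 with hudef
  have hu0 : 0 ≤ u := by
    have : 1 ≤ (1 + t) ^ β := Real.one_le_rpow (by linarith) hβ.le
    linarith
  have h8 : (n * (1 + t)) ^ β = n ^ β * (1 + u) := by
    rw [Real.mul_rpow hn0.le (by linarith), hudef]
    ring
  have h9 : (n * (1 + t)) ^ γ ≤ n ^ γ * (1 + u) := by
    rw [Real.mul_rpow hn0.le (by linarith)]
    apply mul_le_mul_of_nonneg_left _ (by positivity)
    calc (1 + t) ^ γ ≤ (1 + t) ^ β :=
          Real.rpow_le_rpow_of_exponent_le (by linarith) hγβ.le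
      _ = 1 + u := by rw [hudef]; ring
  have h10 : 0 ≤ Real.log m' := Real.log_nonneg hm'
  have h11 : (n * (1 + t)) ^ γ * Real.log m' ≤ n ^ γ * (1 + u) * Real.log m' :=
    mul_le_mul_of_nonneg_right h9 h10
  have h12 : 0 ≤ u * (n ^ β - n ^ γ * Real.log m') := mul_nonneg hu0 (by linarith)
  have h13 : n ^ γ * 1 ≤ n ^ γ * (Real.log m - Real.log m') :=
    mul_le_mul_of_nonneg_left (by linarith) (by positivity)
  unfold G
  rw [h8]
  nlinarith

end Pool.Agent.H10.XR
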