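import Pool.Agent.H10.XR.Num

/-!
# MP_4bc625_an: the lines `γ_z` and the discrete X-ray transform

Definitions and the parametrisation of the lines.
-/

set_option autoImplicit false

namespace Pool.Agent.H10.XR

/-- The square of the Euclidean norm. -/
def nsq (z : ℤ × ℤ) : ℤ := z.1 ^ 2 + z.2 ^ 2

/-- The gcd of the coordinates. -/
def cont (z : ℤ × ℤ) : ℕ := Int.gcd z.1 z.2

/-- `z` lies in `A_α`: its Euclidean norm is at least `α`. -/
def Outside (α : ℝ) (z : ℤ × ℤ) : Prop := α ≤ Real.sqrt (nsq z)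

/-- `f x = O(|x| ^ (-M))`. -/
def Decay (M : ℕ) (f : ℤ × ℤ → ℂ) : Prop :=
  ∃ C : ℝ, ∀ z, ‖f z‖ * Real.sqrt (nsq z) ^ M ≤ C

/-- The lattice points of the line `γ_z`: the line through `z` perpendicular to `z` if `z ≠ 0`, the
line through `0` with direction `w` if `z = 0`. -/
def gam (w z : ℤ × ℤ) : Set (ℤ × ℤ) :=
  {y | if z = 0 then y.1 * w.2 = y.2 * w.1 else (y.1 - z.1) * z.1 + (y.2 - z.2) * z.2 = 0}

/-- The discrete X-ray transform of `f` on the line `γ_z`. -/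
noncomputable def xray (w : ℤ × ℤ) (f : ℤ × ℤ → ℂ) (z : ℤ × ℤ) : ℂ := ∑' y : gam w z, f y

lemma nsq_pos {z : ℤ × ℤ} (hz : z ≠ 0) : 0 < nsq z := by
  unfold nsq
  by_contra h
  have h1 : z.1 ^ 2 = 0 := by nlinarith [sq_nonneg z.1, sq_nonneg z.2]
  have h2 : z.2 ^ 2 = 0 := by nlinarith [sq_nonneg z.1, sq_nonneg z.2]
  exact hz (Prod.ext (pow_eq_zero_iff two_ne_zero |>.1 h1) (pow_eq_zero_iff two_ne_zero |>.1 h2))

lemma cont_pos {z : ℤ × ℤ} (hz : z ≠ 0) : 0 < cont z := by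
  unfold cont
  rw [Nat.pos_iff_ne_zero, Ne, Int.gcd_eq_zero_iff]
  rintro ⟨h1, h2⟩
  exact hz (Prod.ext h1 h2)

/-- The least gcd on the circle. -/
noncomputable def mg (n : ℤ) : ℕ := sInf {t : ℕ | ∃ x : ℤ × ℤ, nsq x = n ∧ cont x = t}

lemma mg_le (x : ℤ × ℤ) : mg (nsq x) ≤ cont x := Nat.sInf_le ⟨x, rfl, rfl⟩

lemma mg_mem (x : ℤ × ℤ) : ∃ y, nsq y = nsq x ∧ cont y = mg (nsq x) :=
  Nat.sInf_mem (s := {t : ℕ | ∃ y : ℤ × ℤ, nsq y = nsq x ∧ cont y = t}) ⟨_, x, rfl, rfl⟩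

lemma mg_pos {x : ℤ × ℤ} (hx : x ≠ 0) : 0 < mg (nsq x) := by
  obtain ⟨y, hy, hy2⟩ := mg_mem x
  rw [← hy2]
  apply cont_pos
  rintro rfl
  have := nsq_pos hx
  rw [← hy] at this
  simp [nsq] at this

/-- A nonzero vector is its gcd times a primitive vector. -/
lemma exists_prim {z : ℤ × ℤ} (hz : z ≠ 0) : ∃ p : ℤ × ℤ, IsCoprime p.1 p.2 ∧
    z = ((cont z : ℤ) * p.1, (cont z : ℤ) * p.2) := by
  have hg : 0 < Int.gcd z.1 z.2 := cont_pos hz
  refine ⟨(z.1 / (Int.gcd z.1 z.2 : ℤ), z.2 / (Int.gcd z.1 z.2 : ℤ)), ?_, ?_⟩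
  · rw [Int.isCoprime_iff_gcd_eq_one]
    exact Int.gcd_ediv_gcd_ediv_gcd hg
  · unfold cont
    refine Prod.ext ?_ ?_
    · exact (Int.mul_ediv_cancel' (Int.gcd_dvd_left _ _)).symm
    · exact (Int.mul_ediv_cancel' (Int.gcd_dvd_right _ _)).symm

/-- The point number `k` of the line `γ_z`. -/
def pt (p z : ℤ × ℤ) (k : ℤ) : ℤ × ℤ := (z.1 - k * p.2, z.2 + k * p.1)

lemma nsq_pt {g : ℤ} {p z : ℤ × ℤ} (h : z = (g * p.1, g * p.2)) (k : ℤ) :
    nsq (pt p z k) = nsq p * (g ^ 2 + k ^ 2) := by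
  rw [h]
  unfold nsq pt
  ring

lemma mg_pt {g : ℕ} (hg : 0 < g) {p z : ℤ × ℤ} (hp : IsCoprime p.1 p.2)
    (h : z = ((g : ℤ) * p.1, (g : ℤ) * p.2)) (k : ℤ) :
    mg (nsq (pt p z k)) ≤ 2 * Int.gcd g k := by
  rw [nsq_pt h k]
  have hd : 0 < Int.gcd g k := Int.gcd_pos_of_ne_zero_left k (by omega)
  obtain ⟨a, ha⟩ := Int.gcd_dvd_left (g : ℤ) k
  obtain ⟨b, hb⟩ := Int.gcd_dvd_right (g : ℤ) k
  have hab : IsCoprime a b := by
    rw [Int.isCoprime_iff_gcd_eq_one]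
    have h1 := Int.gcd_ediv_gcd_ediv_gcd (i := (g : ℤ)) (j := k) hd
    have h2 : (g : ℤ) / (Int.gcd g k : ℤ) = a :=
      Int.ediv_eq_of_eq_mul_right (by omega) ha
    have h3 : k / (Int.gcd g k : ℤ) = b := Int.ediv_eq_of_eq_mul_right (by omega) hb
    rwa [h2, h3] at h1
  have hP : Prim (nsq p).natAbs := ⟨p.1, p.2, hp, by
    rw [Int.natAbs_of_nonneg (by unfold nsq; positivity)]; rfl⟩
  have hQ : Prim (a ^ 2 + b ^ 2).natAbs := ⟨a, b, hab, by
    rw [Int.natAbs_of_nonneg (by positivity)]⟩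
  obtain ⟨u, v, huv, huv2⟩ := prim_mul hP hQ
  rw [Nat.cast_mul, Int.natAbs_of_nonneg (by unfold nsq; positivity),
    Int.natAbs_of_nonneg (by positivity)] at huv
  set d : ℤ := (Int.gcd g k : ℤ) with hdef
  have h1 : nsq (d * u, d * v) = nsq p * ((g : ℤ) ^ 2 + k ^ 2) := by
    calc nsq (d * u, d * v) = d ^ 2 * (u ^ 2 + v ^ 2) := by unfold nsq; ring
      _ = d ^ 2 * (nsq p * (a ^ 2 + b ^ 2)) := by rw [huv]
      _ = nsq p * ((d * a) ^ 2 + (d * b) ^ 2) := by ring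
      _ = nsq p * ((g : ℤ) ^ 2 + k ^ 2) := by rw [← ha, ← hb]
  rw [← h1]
  refine (mg_le _).trans ?_
  have h2 : cont (d * u, d * v) = Int.gcd g k * Int.gcd u v := by
    unfold cont
    rw [Int.gcd_mul_left, hdef, Int.natAbs_natCast]
  rw [h2, mul_comm 2]
  exact Nat.mul_le_mul_left _ (Nat.le_of_dvd (by norm_num) huv2)

/-- The line is parametrised by the integers. -/
lemma tsum_gam {w z : ℤ × ℤ} (hz : z ≠ 0) {p : ℤ × ℤ} (hp : IsCoprime p.1 p.2)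
    (h : z = ((cont z : ℤ) * p.1, (cont z : ℤ) * p.2)) (f : ℤ × ℤ → ℂ) :
    xray w f z = ∑' k : ℤ, f (pt p z k) := by
  have hg : (0 : ℤ) < cont z := by exact_mod_cast cont_pos hz
  have hz1 : z.1 = (cont z : ℤ) * p.1 := congrArg Prod.fst h
  have hz2 : z.2 = (cont z : ℤ) * p.2 := congrArg Prod.snd h
  have hmem : ∀ k, pt p z k ∈ gam w z := by
    intro k
    show (if z = 0 then _ else _)
    rw [if_neg hz]
    unfold pt
    rw [hz1, hz2]
    ring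
  have hinj : Function.Injective fun k => (⟨pt p z k, hmem k⟩ : gam w z) := by
    intro k l hkl
    have h1 : pt p z k = pt p z l := congrArg Subtype.val hkl
    unfold pt at h1
    have h2 : k * p.2 = l * p.2 := by linarith [congrArg Prod.fst h1]
    have h3 : k * p.1 = l * p.1 := by linarith [congrArg Prod.snd h1]
    obtain ⟨a, b, hab⟩ := hp
    calc k = k * (a * p.1 + b * p.2) := by rw [hab, mul_one]
      _ = a * (k * p.1) + b * (k * p.2) := by ring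
      _ = a * (l * p.1) + b * (l * p.2) := by rw [h2, h3]
      _ = l * (a * p.1 + b * p.2) := by ring
      _ = l := by rw [hab, mul_one]
  have hsurj : Function.Surjective fun k => (⟨pt p z k, hmem k⟩ : gam w z) := by
    rintro ⟨y, hy⟩
    have hy' : (if z = 0 then _ else _) := hy
    rw [if_neg hz] at hy'
    obtain ⟨a, b, hab⟩ := hp
    have h1 : (y.1 - z.1) * p.1 + (y.2 - z.2) * p.2 = 0 := by
      have : (cont z : ℤ) * ((y.1 - z.1) * p.1 + (y.2 - z.2) * p.2) = 0 := by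
        calc (cont z : ℤ) * ((y.1 - z.1) * p.1 + (y.2 - z.2) * p.2)
            = (y.1 - z.1) * ((cont z : ℤ) * p.1) + (y.2 - z.2) * ((cont z : ℤ) * p.2) := by ring
          _ = (y.1 - z.1) * z.1 + (y.2 - z.2) * z.2 := by rw [← hz1, ← hz2]
          _ = 0 := hy'
      exact (mul_eq_zero.1 this).resolve_left (by omega)
    refine ⟨a * (y.2 - z.2) - b * (y.1 - z.1), Subtype.ext (Prod.ext ?_ ?_)⟩
    · show z.1 - (a * (y.2 - z.2) - b * (y.1 - z.1)) * p.2 = y.1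
      linear_combination (y.1 - z.1) * hab - a * h1
    · show z.2 + (a * (y.2 - z.2) - b * (y.1 - z.1)) * p.1 = y.2
      linear_combination (y.2 - z.2) * hab - b * h1
  exact (Equiv.tsum_eq (Equiv.ofBijective _ ⟨hinj, hsurj⟩) fun y : gam w z => f y).symm

lemma sqrt_sq_nsq (z : ℤ × ℤ) : Real.sqrt (nsq z) ^ 2 = nsq z :=
  Real.sq_sqrt (by exact_mod_cast (show 0 ≤ nsq z by unfold nsq; positivity))

lemma rapid {f : ℤ × ℤ → ℂ} {t : ℕ} (hf : Decay (2 * t) f) (s : ℕ) (hst : s ≤ t) :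
    ∃ C : ℝ, 0 ≤ C ∧ ∀ z, z ≠ 0 → ‖f z‖ * (nsq z : ℝ) ^ s ≤ C := by
  obtain ⟨C, hC⟩ := hf
  refine ⟨|C|, abs_nonneg _, fun z hz => ?_⟩
  have h := hC z
  rw [pow_mul, sqrt_sq_nsq] at h
  have h1 : (1 : ℝ) ≤ (nsq z : ℝ) := by exact_mod_cast nsq_pos hz
  have h2 : (nsq z : ℝ) ^ s ≤ (nsq z : ℝ) ^ t := pow_le_pow_right₀ h1 hst
  exact ((mul_le_mul_of_nonneg_left h2 (norm_nonneg _)).trans h).trans (le_abs_self C)

lemma summable_plane {f : ℤ × ℤ → ℂ} {t : ℕ} (hf : Decay (2 * t) f) (ht : 2 ≤ t) :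
    Summable f := by
  obtain ⟨C, hC0, hC⟩ := rapid hf 2 ht
  have h0 : Summable fun k : ℤ => 1 / (k : ℝ) ^ 2 + if k = 0 then (1 : ℝ) else 0 :=
    (Real.summable_one_div_int_pow.2 (by norm_num)).add (hasSum_ite_eq (0 : ℤ) (1 : ℝ)).summable
  have h1 : ∀ k : ℤ, 1 / (1 + (k : ℝ) ^ 2) ≤ 1 / (k : ℝ) ^ 2 + if k = 0 then (1 : ℝ) else 0 := by
    intro k
    split_ifs with hk
    · rw [hk]
      norm_num
    · have hk' : (0 : ℝ) < (k : ℝ) ^ 2 := by
        have : (k : ℝ) ≠ 0 := by exact_mod_cast hk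
        positivity
      rw [add_zero]
      exact one_div_le_one_div_of_le hk' (by linarith)
  have h2 : Summable fun k : ℤ => 1 / (1 + (k : ℝ) ^ 2) :=
    Summable.of_nonneg_of_le (fun k => by positivity) h1 h0
  have h3 : Summable fun z : ℤ × ℤ => (1 / (1 + (z.1 : ℝ) ^ 2)) * (1 / (1 + (z.2 : ℝ) ^ 2)) :=
    Summable.mul_of_nonneg h2 h2 (fun k => by positivity) (fun k => by positivity)
  refine Summable.of_norm_bounded (h3.mul_left (3 * C + ‖f 0‖)) fun z => ?_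
  by_cases hz : z = 0
  · rw [hz]
    simp
    exact hC0
  · have h4 := hC z hz
    have h5 : (1 : ℝ) ≤ (nsq z : ℝ) := by exact_mod_cast nsq_pos hz
    have h6 : (nsq z : ℝ) = (z.1 : ℝ) ^ 2 + (z.2 : ℝ) ^ 2 := by unfold nsq; push_cast; ring
    have h7 : (1 + (z.1 : ℝ) ^ 2) * (1 + (z.2 : ℝ) ^ 2) ≤ 3 * (nsq z : ℝ) ^ 2 := by
      rw [h6] at h5 ⊢
      nlinarith [sq_nonneg (z.1 : ℝ), sq_nonneg (z.2 : ℝ),
        mul_nonneg (sq_nonneg (z.1 : ℝ)) (sq_nonneg (z.2 : ℝ))]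
    have h8 : ‖f z‖ * ((1 + (z.1 : ℝ) ^ 2) * (1 + (z.2 : ℝ) ^ 2)) ≤ 3 * C := by
      calc ‖f z‖ * ((1 + (z.1 : ℝ) ^ 2) * (1 + (z.2 : ℝ) ^ 2))
          ≤ ‖f z‖ * (3 * (nsq z : ℝ) ^ 2) := mul_le_mul_of_nonneg_left h7 (norm_nonneg _)
        _ = 3 * (‖f z‖ * (nsq z : ℝ) ^ 2) := by ring
        _ ≤ 3 * C := by linarith
    have h9 : ‖f z‖ ≤ 3 * C * ((1 / (1 + (z.1 : ℝ) ^ 2)) * (1 / (1 + (z.2 : ℝ) ^ 2))) := by
      rw [one_div_mul_one_div, mul_one_div, le_div_iff₀ (by positivity)]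
      exact h8
    refine h9.trans ?_
    gcongr
    have := norm_nonneg (f 0)
    linarith

lemma summable_line {f : ℤ × ℤ → ℂ} {t : ℕ} (hf : Decay (2 * t) f) (ht : 1 ≤ t)
    {g : ℕ} (hg : 0 < g)
    {p z : ℤ × ℤ} (hp : p ≠ 0) (h : z = ((g : ℤ) * p.1, (g : ℤ) * p.2)) :
    Summable fun k : ℤ => ‖f (pt p z k)‖ := by
  obtain ⟨C, hC0, hC⟩ := rapid hf 1 ht
  have h1 : Summable fun k : ℤ => C * (1 / (k : ℝ) ^ 2 + if k = 0 then 1 else 0) := by
    apply Summable.mul_left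
    apply Summable.add
    · exact Real.summable_one_div_int_pow.2 (by norm_num)
    · exact (hasSum_ite_eq (0 : ℤ) (1 : ℝ)).summable
  refine Summable.of_nonneg_of_le (fun k => norm_nonneg _) (fun k => ?_) h1
  have hpk : pt p z k ≠ 0 := by
    intro h0
    have h1 := nsq_pt h k
    rw [h0] at h1
    have h2 := nsq_pos hp
    have h3 : (0 : ℤ) < (g : ℤ) ^ 2 := by
      have : (0 : ℤ) < (g : ℤ) := by exact_mod_cast hg
      positivity
    have h4 : nsq (0 : ℤ × ℤ) = 0 := by simp [nsq]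
    rw [h4] at h1
    nlinarith [mul_pos h2 h3, mul_nonneg h2.le (sq_nonneg k)]
  have h2 := hC (pt p z k) hpk
  rw [pow_one, nsq_pt h k] at h2
  have hP : (1 : ℝ) ≤ (nsq p : ℝ) := by exact_mod_cast nsq_pos hp
  have hg1 : (1 : ℝ) ≤ (g : ℝ) ^ 2 := one_le_pow₀ (by exact_mod_cast hg)
  have hk0 : (0 : ℝ) ≤ (k : ℝ) ^ 2 := sq_nonneg _
  push_cast at h2
  have h3 : 1 + (k : ℝ) ^ 2 ≤ (nsq p : ℝ) * ((g : ℝ) ^ 2 + (k : ℝ) ^ 2) := by nlinarith
  have h4 : ‖f (pt p z k)‖ * (1 + (k : ℝ) ^ 2) ≤ C :=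
    (mul_le_mul_of_nonneg_left h3 (norm_nonneg _)).trans h2
  have h5 : ‖f (pt p z k)‖ ≤ C * (1 / (1 + (k : ℝ) ^ 2)) := by
    rw [mul_one_div, le_div_iff₀ (by positivity)]
    exact h4
  refine h5.trans (mul_le_mul_of_nonneg_left ?_ hC0)
  split_ifs with hk
  · rw [hk]
    norm_num
  · have hk' : (0 : ℝ) < (k : ℝ) ^ 2 := by
      have : (k : ℝ) ≠ 0 := by exact_mod_cast hk
      positivity
    rw [add_zero]
    exact one_div_le_one_div_of_le hk' (by linarith)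

/-- The value at `z` is controlled by the other values on its line. -/
lemma norm_le {w : ℤ × ℤ} {f : ℤ × ℤ → ℂ} {t : ℕ} (hf : Decay (2 * t) f) (ht : 1 ≤ t)
    {z : ℤ × ℤ}
    (hz : z ≠ 0) {p : ℤ × ℤ} (hp : IsCoprime p.1 p.2)
    (h : z = ((cont z : ℤ) * p.1, (cont z : ℤ) * p.2)) (hx : xray w f z = 0) :
    Summable (fun k : ℤ => if k = 0 then 0 else ‖f (pt p z k)‖) ∧
    ‖f z‖ ≤ ∑' k : ℤ, if k = 0 then 0 else ‖f (pt p z k)‖ := by
  have hp0 : p ≠ 0 := by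
    rintro rfl
    exact not_isCoprime_zero_zero hp
  have hs := summable_line hf ht (cont_pos hz) hp0 h
  have hs' : Summable (fun k : ℤ => if k = 0 then 0 else ‖f (pt p z k)‖) :=
    Summable.of_nonneg_of_le (fun k => by split_ifs <;> positivity)
      (fun k => by split_ifs <;> [positivity; exact le_rfl]) hs
  refine ⟨hs', ?_⟩
  rw [tsum_gam hz hp h] at hx
  have h1 := hs.of_norm.tsum_eq_add_tsum_ite (0 : ℤ)
  rw [hx] at h1
  have h2 : pt p z 0 = z := by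
    unfold pt
    simp
  rw [h2] at h1
  have h3 : f z = -∑' k : ℤ, if k = 0 then 0 else f (pt p z k) := by
    rw [eq_neg_iff_add_eq_zero]
    exact h1.symm
  rw [h3, norm_neg]
  have h4 : ∀ k : ℤ, ‖(if k = 0 then 0 else f (pt p z k) : ℂ)‖ =
      if k = 0 then 0 else ‖f (pt p z k)‖ := by
    intro k
    split_ifs <;> simp
  have h5 := norm_tsum_le_tsum_norm (f := fun k : ℤ => (if k = 0 then 0 else f (pt p z k) : ℂ))
    (by simpa only [h4] using hs')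
  simpa only [h4] using h5

lemma decay_sub {M : ℕ} {f g : ℤ × ℤ → ℂ} (hf : Decay M f) (hg : Decay M g) :
    Decay M fun z => f z - g z := by
  obtain ⟨C, hC⟩ := hf
  obtain ⟨D, hD⟩ := hg
  refine ⟨C + D, fun z => ?_⟩
  calc ‖f z - g z‖ * Real.sqrt (nsq z) ^ M
      ≤ (‖f z‖ + ‖g z‖) * Real.sqrt (nsq z) ^ M :=
        mul_le_mul_of_nonneg_right (norm_sub_le _ _) (by positivity)
    _ = ‖f z‖ * Real.sqrt (nsq z) ^ M + ‖g z‖ * Real.sqrt (nsq z) ^ M := by ring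
    _ ≤ C + D := add_le_add (hC z) (hD z)

lemma xray_sub {t : ℕ} (ht : 2 ≤ t) {w : ℤ × ℤ} {f g : ℤ × ℤ → ℂ} (hf : Decay (2 * t) f)
    (hg : Decay (2 * t) g) {z : ℤ × ℤ} (h : xray w f z = xray w g z) :
    xray w (fun y => f y - g y) z = 0 := by
  unfold xray at h ⊢
  have h1 := (summable_plane hf ht).subtype (gam w z)
  have h2 := (summable_plane hg ht).subtype (gam w z)
  have h3 := h1.tsum_sub h2
  calc ∑' y : gam w z, (f y - g y) = ∑' y : gam w z, f y - ∑' y : gam w z, g y := h3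
    _ = 0 := by rw [h, sub_self]

lemma conclude {w : ℤ × ℤ} {α : ℝ} (hα : 0 ≤ α) {f g : ℤ × ℤ → ℂ}
    (hsub : Outside α 0 → xray w (fun y => f y - g y) 0 = 0)
    (h0 : ∀ z, z ≠ 0 → Outside α z → f z - g z = 0) : ∀ z, Outside α z → f z = g z := by
  intro z hz
  by_cases hz0 : z = 0
  · subst hz0
    have hα0 : α = 0 := by
      have h1 : α ≤ 0 := by
        have : α ≤ Real.sqrt (nsq (0 : ℤ × ℤ)) := hz
        simpa [nsq] using this
      exact le_antisymm h1 hα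
    have hout : ∀ y, Outside α y := fun y => by
      unfold Outside
      rw [hα0]
      exact Real.sqrt_nonneg _
    have hmem : (0 : ℤ × ℤ) ∈ gam w 0 := by
      simp [gam]
    have h1 := hsub hz
    unfold xray at h1
    rw [tsum_eq_single (⟨0, hmem⟩ : gam w 0)] at h1
    · exact sub_eq_zero.1 h1
    · intro y hy
      exact h0 y (fun h2 => hy (Subtype.ext h2)) (hout y)
  · exact sub_eq_zero.1 (h0 z hz0 hz)

end Pool.Agent.H10.XR
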