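import Mathlib

/-!
# MP_4bc625_an: norms of primitive vectors

`Prim n`: `n` is a sum of two coprime squares. The product of two such numbers has a representation
`u ^ 2 + v ^ 2` with `gcd(u, v)` dividing 2.
-/

set_option autoImplicit false

namespace Pool.Agent.H10.XR

/-- `n` is the sum of two coprime squares. -/
def Prim (n : ℕ) : Prop := ∃ x y : ℤ, IsCoprime x y ∧ x ^ 2 + y ^ 2 = n

private lemma dvd_of_not_coprime {l : ℕ} (hl : l.Prime) {x y u v : ℤ} (hc : IsCoprime x y)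
    (h1 : ∃ c d : ℤ, c * u + d * v = l * x) (h2 : ∃ c d : ℤ, c * u + d * v = l * y)
    (hn : ¬ IsCoprime u v) : (l : ℤ) ∣ u ∧ (l : ℤ) ∣ v := by
  rw [Int.isCoprime_iff_gcd_eq_one] at hn
  obtain ⟨r, hr, hrd⟩ := Nat.exists_prime_and_dvd hn
  have hu : (r : ℤ) ∣ u := (Int.natCast_dvd_natCast.2 hrd).trans (Int.gcd_dvd_left _ _)
  have hv : (r : ℤ) ∣ v := (Int.natCast_dvd_natCast.2 hrd).trans (Int.gcd_dvd_right _ _)
  have hrZ : Prime (r : ℤ) := Nat.prime_iff_prime_int.1 hr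
  have hlx : (r : ℤ) ∣ l * x := by
    obtain ⟨c, d, h⟩ := h1
    rw [← h]
    exact dvd_add (hu.mul_left c) (hv.mul_left d)
  have hly : (r : ℤ) ∣ l * y := by
    obtain ⟨c, d, h⟩ := h2
    rw [← h]
    exact dvd_add (hu.mul_left c) (hv.mul_left d)
  have hrl : (r : ℤ) ∣ l := by
    rcases hrZ.dvd_or_dvd hlx with h | h
    · exact h
    · rcases hrZ.dvd_or_dvd hly with h' | h'
      · exact h'
      · exact absurd (hc.isUnit_of_dvd' h h') hrZ.not_isUnit
  have : r = l := (Nat.prime_dvd_prime_iff_eq hr hl).1 (by exact_mod_cast hrl)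
  subst this
  exact ⟨hu, hv⟩

private lemma prim_mul_prime {n l : ℕ} (hn : Prim n) (hl : l.Prime) (h4 : l % 4 = 1) :
    Prim (n * l) := by
  obtain ⟨x, y, hc, hxy⟩ := hn
  have : Fact l.Prime := ⟨hl⟩
  obtain ⟨a, b, hab⟩ := Nat.Prime.sq_add_sq (p := l) (by omega)
  have habZ : (a : ℤ) ^ 2 + (b : ℤ) ^ 2 = l := by exact_mod_cast hab
  have hlZ : Prime (l : ℤ) := Nat.prime_iff_prime_int.1 hl
  have hl2 : (2 : ℤ) ≤ l := by exact_mod_cast hl.two_le
  have hnab : ¬ ((l : ℤ) ∣ a ∧ (l : ℤ) ∣ b) := by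
    rintro ⟨⟨c, hc'⟩, ⟨d, hd'⟩⟩
    have h : (l : ℤ) * ((l : ℤ) * (c ^ 2 + d ^ 2)) = (l : ℤ) * 1 := by
      calc (l : ℤ) * ((l : ℤ) * (c ^ 2 + d ^ 2)) = ((l : ℤ) * c) ^ 2 + ((l : ℤ) * d) ^ 2 := by ring
        _ = (l : ℤ) * 1 := by rw [← hc', ← hd', habZ, mul_one]
    have h' := mul_left_cancel₀ (by omega : (l : ℤ) ≠ 0) h
    have : (l : ℤ) ∣ 1 := ⟨_, h'.symm⟩
    exact hlZ.not_isUnit (isUnit_of_dvd_one this)
  by_cases h1 : IsCoprime (x * a - y * b) (x * b + y * a)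
  · refine ⟨_, _, h1, ?_⟩
    push_cast
    rw [← hxy, ← habZ]
    ring
  by_cases h2 : IsCoprime (x * a + y * b) (x * b - y * a)
  · refine ⟨_, _, h2, ?_⟩
    push_cast
    rw [← hxy, ← habZ]
    ring
  exfalso
  obtain ⟨d1, d2⟩ := dvd_of_not_coprime hl hc ⟨a, b, by rw [← habZ]; ring⟩
    ⟨-b, a, by rw [← habZ]; ring⟩ h1
  obtain ⟨d3, d4⟩ := dvd_of_not_coprime hl hc ⟨a, b, by rw [← habZ]; ring⟩
    ⟨b, -a, by rw [← habZ]; ring⟩ h2
  have hn2 : ¬ (l : ℤ) ∣ 2 := by
    intro h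
    have := Int.le_of_dvd (by norm_num) h
    have h3 : l ≤ 2 := by exact_mod_cast this
    omega
  have e1 : (l : ℤ) ∣ 2 * (x * a) := by
    have := dvd_add d1 d3
    rwa [show x * a - y * b + (x * a + y * b) = 2 * (x * a) by ring] at this
  have e2 : (l : ℤ) ∣ 2 * (x * b) := by
    have := dvd_add d2 d4
    rwa [show x * b + y * a + (x * b - y * a) = 2 * (x * b) by ring] at this
  have e3 : (l : ℤ) ∣ 2 * (y * b) := by
    have := dvd_sub d3 d1
    rwa [show x * a + y * b - (x * a - y * b) = 2 * (y * b) by ring] at this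
  have e4 : (l : ℤ) ∣ 2 * (y * a) := by
    have := dvd_sub d2 d4
    rwa [show x * b + y * a - (x * b - y * a) = 2 * (y * a) by ring] at this
  have f : ∀ t : ℤ, (l : ℤ) ∣ 2 * (t * a) → (l : ℤ) ∣ 2 * (t * b) → (l : ℤ) ∣ t := by
    intro t ha hb
    by_contra hcon
    apply hnab
    constructor
    · rcases hlZ.dvd_or_dvd ha with h | h
      · exact absurd h hn2
      · rcases hlZ.dvd_or_dvd h with h' | h'
        · exact absurd h' hcon
        · exact h'
    · rcases hlZ.dvd_or_dvd hb with h | h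
      · exact absurd h hn2
      · rcases hlZ.dvd_or_dvd h with h' | h'
        · exact absurd h' hcon
        · exact h'
  exact hlZ.not_isUnit (hc.isUnit_of_dvd' (f x e1 e2) (f y e4 e3))

private lemma prime_mod_four {m l : ℕ} (hm : Prim m) (hl : l.Prime) (hd : l ∣ m) (h2 : l ≠ 2) :
    l % 4 = 1 := by
  obtain ⟨x, y, hc, hxy⟩ := hm
  have : Fact l.Prime := ⟨hl⟩
  have h1 := ZMod.isSquare_neg_one_of_eq_sq_add_sq_of_isCoprime (n := (m : ℤ)) hxy.symm hc
  rw [Int.natAbs_natCast] at h1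
  have h3 := ZMod.isSquare_neg_one_of_dvd hd h1
  have h4 : l % 4 ≠ 3 := ZMod.exists_sq_eq_neg_one_iff.1 h3
  have h5 : l % 2 = 1 := hl.eq_two_or_odd.resolve_left h2
  omega

private lemma prim_mul_good (m : ℕ) : ∀ n : ℕ, Prim n → 0 < m →
    (∀ l : ℕ, l.Prime → l ∣ m → l % 4 = 1) → Prim (n * m) := by
  induction m using Nat.strong_induction_on with
  | _ m ih =>
    intro n hn hm hp
    rcases Nat.lt_or_ge 1 m with h1 | h1
    · have hl : (m.minFac).Prime := Nat.minFac_prime (by omega)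
      obtain ⟨t, ht⟩ := m.minFac_dvd
      have ht0 : 0 < t := by
        rcases Nat.eq_zero_or_pos t with h | h
        · rw [h, mul_zero] at ht; omega
        · exact h
      have htm : t < m := by
        calc t < m.minFac * t := by nlinarith [hl.two_le]
          _ = m := ht.symm
      have h2 := ih t htm (n * m.minFac) (prim_mul_prime hn hl (hp _ hl (Nat.minFac_dvd m))) ht0
        (fun l hl' hd => hp l hl' (hd.trans ⟨m.minFac, by rw [mul_comm]; exact ht⟩))
      rwa [mul_assoc, ← ht] at h2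
    · have : m = 1 := by omega
      rw [this, mul_one]
      exact hn

/-- The product of two sums of two coprime squares has a representation with gcd at most 2. -/
theorem prim_mul {n m : ℕ} (hn : Prim n) (hm : Prim m) :
    ∃ u v : ℤ, u ^ 2 + v ^ 2 = (n * m : ℕ) ∧ Int.gcd u v ∣ 2 := by
  have hm0 : 0 < m := by
    rcases Nat.eq_zero_or_pos m with h | h
    · obtain ⟨x, y, hc, hxy⟩ := hm
      rw [h] at hxy
      have hx : x = 0 := by
        have : x ^ 2 = 0 := by push_cast at hxy; nlinarith [sq_nonneg x, sq_nonneg y]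
        exact pow_eq_zero_iff (two_ne_zero) |>.1 this
      have hy : y = 0 := by
        have : y ^ 2 = 0 := by push_cast at hxy; nlinarith [sq_nonneg x, sq_nonneg y]
        exact pow_eq_zero_iff (two_ne_zero) |>.1 this
      rw [hx, hy] at hc
      exact absurd hc not_isCoprime_zero_zero
    · exact h
  by_cases hodd : m % 2 = 1
  · obtain ⟨x, y, hc, hxy⟩ := prim_mul_good m n hn hm0 (fun l hl hd =>
      prime_mod_four hm hl hd (by rintro rfl; omega))
    refine ⟨x, y, hxy, ?_⟩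
    rw [Int.isCoprime_iff_gcd_eq_one.1 hc]
    norm_num
  · obtain ⟨x, y, hc, hxy⟩ := id hm
    have h4 : m % 4 = 2 := by
      have hx : x % 2 = 1 ∨ x % 2 = 0 := by omega
      have hy : y % 2 = 1 ∨ y % 2 = 0 := by omega
      have hZ : (x ^ 2 + y ^ 2) % 2 = 0 := by rw [hxy]; omega
      rcases hx with hx | hx <;> rcases hy with hy | hy
      · obtain ⟨a, ha⟩ : ∃ a, x = 2 * a + 1 := ⟨x / 2, by omega⟩
        obtain ⟨b, hb⟩ : ∃ b, y = 2 * b + 1 := ⟨y / 2, by omega⟩
        have : (m : ℤ) = 4 * (a ^ 2 + a + b ^ 2 + b) + 2 := by rw [← hxy, ha, hb]; ring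
        omega
      · obtain ⟨a, ha⟩ : ∃ a, x = 2 * a + 1 := ⟨x / 2, by omega⟩
        obtain ⟨b, hb⟩ : ∃ b, y = 2 * b := ⟨y / 2, by omega⟩
        have : x ^ 2 + y ^ 2 = 2 * (2 * a ^ 2 + 2 * a + 2 * b ^ 2) + 1 := by rw [ha, hb]; ring
        omega
      · obtain ⟨a, ha⟩ : ∃ a, x = 2 * a := ⟨x / 2, by omega⟩
        obtain ⟨b, hb⟩ : ∃ b, y = 2 * b + 1 := ⟨y / 2, by omega⟩
        have : x ^ 2 + y ^ 2 = 2 * (2 * a ^ 2 + 2 * b ^ 2 + 2 * b) + 1 := by rw [ha, hb]; ring
        omega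
      · exact absurd (hc.isUnit_of_dvd' (Int.dvd_of_emod_eq_zero hx)
          (Int.dvd_of_emod_eq_zero hy)) (by decide)
    obtain ⟨t, ht⟩ : ∃ t, m = 2 * t := ⟨m / 2, by omega⟩
    obtain ⟨a, b, hab, h⟩ := prim_mul_good t n hn (by omega) (fun l hl hd =>
      prime_mod_four hm hl (hd.trans ⟨2, by rw [ht]; ring⟩) (by rintro rfl; omega))
    refine ⟨a - b, a + b, ?_, ?_⟩
    · rw [ht]
      push_cast at h ⊢
      linear_combination 2 * h
    · have h1 : (Int.gcd (a - b) (a + b) : ℤ) ∣ 2 * a := by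
        have := dvd_add (Int.gcd_dvd_left (a - b) (a + b)) (Int.gcd_dvd_right (a - b) (a + b))
        rwa [show a - b + (a + b) = 2 * a by ring] at this
      have h2 : (Int.gcd (a - b) (a + b) : ℤ) ∣ 2 * b := by
        have := dvd_sub (Int.gcd_dvd_right (a - b) (a + b)) (Int.gcd_dvd_left (a - b) (a + b))
        rwa [show a + b - (a - b) = 2 * b by ring] at this
      obtain ⟨c, d, hcd⟩ := hab
      have h3 : (Int.gcd (a - b) (a + b) : ℤ) ∣ 2 := by
        have := dvd_add (h1.mul_left c) (h2.mul_left d)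
        rwa [show c * (2 * a) + d * (2 * b) = 2 * (c * a + d * b) by ring, hcd, mul_one] at this
      exact_mod_cast h3

end Pool.Agent.H10.XR
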