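import Mathlib

/-!
# MP_4bc625_an: the series

For `L >= 1` and `eps > 0` there are exponents `s, c` such that for every `g >= 1` the sum over the
integers `k ≠ 0` of `(g ^ 2 / (g ^ 2 + k ^ 2)) ^ s * (2 L gcd(g, k) / g) ^ c` is at most `eps`.
-/

set_option autoImplicit false

namespace Pool.Agent.H10.XR

private lemma choose_exp (L : ℕ) (hL : 1 ≤ L) (ε : ℝ) (hε : 0 < ε) :
    ∃ s c : ℕ, ∀ e m : ℝ, 1 ≤ e → 1 ≤ m →
      (e ^ 2 / (e ^ 2 + m ^ 2)) ^ s * (2 * L / e) ^ c ≤ ε * ((1 / e ^ 2) * (1 / m ^ 2)) := by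
  have hL1 : (1 : ℝ) ≤ L := by exact_mod_cast hL
  obtain ⟨c, hc⟩ := exists_pow_lt_of_lt_one (show 0 < ε / ((2 * L : ℝ) ^ 4) by positivity)
    (show (1 / 2 : ℝ) < 1 by norm_num)
  set q : ℝ := (4 * L : ℝ) ^ 2 / ((4 * L : ℝ) ^ 2 + 1) with hq
  have hq0 : 0 ≤ q := by positivity
  have hq1 : q < 1 := by
    rw [hq, div_lt_one (by positivity)]
    linarith
  obtain ⟨s, hs⟩ := exists_pow_lt_of_lt_one
    (show 0 < ε / ((4 * L : ℝ) ^ 4 * (2 * L : ℝ) ^ (c + 4)) by positivity) hq1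
  refine ⟨s + 1, c + 4, fun e m he hm => ?_⟩
  have he0 : 0 < e := by linarith
  have hm0 : 0 < m := by linarith
  set r : ℝ := e ^ 2 / (e ^ 2 + m ^ 2) with hr
  have hr0 : 0 ≤ r := by positivity
  have hr1 : r ≤ 1 := by
    rw [hr, div_le_one (by positivity)]
    nlinarith [sq_nonneg m]
  have hrm : r ≤ e ^ 2 / m ^ 2 :=
    div_le_div_of_nonneg_left (by positivity) (by positivity) (by nlinarith [sq_nonneg e])
  have hgoal : e ^ 4 * (r ^ s * (2 * L / e) ^ (c + 4)) ≤ ε := by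
    rcases le_total (4 * (L : ℝ)) e with h | h
    · have h1 : r ^ s ≤ 1 := pow_le_one₀ hr0 hr1
      have h2 : 2 * (L : ℝ) / e ≤ 1 / 2 := by
        rw [div_le_div_iff₀ he0 (by norm_num)]
        linarith
      have h3 : (2 * (L : ℝ) / e) ^ c ≤ (1 / 2) ^ c := pow_le_pow_left₀ (by positivity) h2 c
      calc e ^ 4 * (r ^ s * (2 * L / e) ^ (c + 4))
          = r ^ s * ((2 * L / e) ^ c * (2 * L : ℝ) ^ 4) := by
            rw [pow_add (2 * (L : ℝ) / e) c 4, div_pow (2 * (L : ℝ)) e 4]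
            field_simp
        _ ≤ 1 * ((1 / 2) ^ c * (2 * L : ℝ) ^ 4) := by gcongr
        _ = (1 / 2) ^ c * (2 * L : ℝ) ^ 4 := one_mul _
        _ ≤ ε / ((2 * L : ℝ) ^ 4) * (2 * L : ℝ) ^ 4 := by gcongr
        _ = ε := by field_simp
    · have h1 : r ≤ q := by
        rw [hr, hq, div_le_div_iff₀ (by positivity) (by positivity)]
        have h2 : e ^ 2 ≤ (4 * (L : ℝ)) ^ 2 := pow_le_pow_left₀ he0.le h 2
        have h3 : 1 ≤ m ^ 2 := one_le_pow₀ hm
        nlinarith [mul_le_mul h2 h3 (by norm_num) (by positivity)]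
      have h2 : r ^ s ≤ q ^ s := pow_le_pow_left₀ hr0 h1 s
      have h3 : 2 * (L : ℝ) / e ≤ 2 * L := div_le_self (by positivity) he
      have h4 : (2 * (L : ℝ) / e) ^ (c + 4) ≤ (2 * L : ℝ) ^ (c + 4) :=
        pow_le_pow_left₀ (by positivity) h3 _
      have h5 : e ^ 4 ≤ (4 * L : ℝ) ^ 4 := pow_le_pow_left₀ he0.le h 4
      calc e ^ 4 * (r ^ s * (2 * L / e) ^ (c + 4))
          ≤ (4 * L : ℝ) ^ 4 * (q ^ s * (2 * L : ℝ) ^ (c + 4)) := by gcongr
        _ = q ^ s * ((4 * L : ℝ) ^ 4 * (2 * L : ℝ) ^ (c + 4)) := by ring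
        _ ≤ ε / ((4 * L : ℝ) ^ 4 * (2 * L : ℝ) ^ (c + 4)) *
            ((4 * L : ℝ) ^ 4 * (2 * L : ℝ) ^ (c + 4)) := by gcongr
        _ = ε := by field_simp
  calc r ^ (s + 1) * (2 * L / e) ^ (c + 4)
      = r * (r ^ s * (2 * L / e) ^ (c + 4)) := by ring
    _ ≤ (e ^ 2 / m ^ 2) * (r ^ s * (2 * L / e) ^ (c + 4)) := by
        apply mul_le_mul_of_nonneg_right hrm (by positivity)
    _ = (e ^ 4 * (r ^ s * (2 * L / e) ^ (c + 4))) * ((1 / e ^ 2) * (1 / m ^ 2)) := by
        field_simp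
    _ ≤ ε * ((1 / e ^ 2) * (1 / m ^ 2)) := mul_le_mul_of_nonneg_right hgoal (by positivity)

/-- The term of the series. -/
noncomputable def term (L : ℝ) (s c g : ℕ) (k : ℤ) : ℝ :=
  if k = 0 then 0 else
    ((g : ℝ) ^ 2 / ((g : ℝ) ^ 2 + (k : ℝ) ^ 2)) ^ s * (2 * L * (Int.gcd g k : ℝ) / g) ^ c

/-- The bound for the series. -/
theorem series (L : ℕ) (hL : 1 ≤ L) (ε : ℝ) (hε : 0 < ε) : ∃ s c : ℕ, ∀ g : ℕ, 1 ≤ g →
    Summable (term L s c g) ∧ ∑' k, term L s c g k ≤ ε := by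
  set F : ℕ × ℤ → ℝ := fun p => (1 / (p.1 : ℝ) ^ 2) * (1 / (p.2 : ℝ) ^ 2) with hF
  have hFs : Summable F := by
    refine Summable.mul_of_nonneg (f := fun n : ℕ => 1 / (n : ℝ) ^ 2)
      (g := fun n : ℤ => 1 / (n : ℝ) ^ 2) ?_ ?_ ?_ ?_
    · exact Real.summable_one_div_nat_pow.2 (by norm_num)
    · exact Real.summable_one_div_int_pow.2 (by norm_num)
    · intro n; positivity
    · intro n; positivity
  have hF0 : ∀ p, 0 ≤ F p := fun p => by positivity
  have hS0 : 0 ≤ ∑' p, F p := tsum_nonneg hF0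
  obtain ⟨s, c, hsc⟩ := choose_exp L hL (ε / (∑' p, F p + 1)) (by positivity)
  refine ⟨s, c, fun g hg => ?_⟩
  have hg0 : (0 : ℝ) < g := by exact_mod_cast hg
  set i : ℤ → ℕ × ℤ := fun k => (g / Int.gcd g k, k / (Int.gcd g k : ℤ)) with hi
  have hd0 : ∀ k : ℤ, 0 < Int.gcd g k := fun k => Int.gcd_pos_of_ne_zero_left k (by omega)
  have e1 : ∀ k : ℤ, ((i k).1 : ℝ) * (Int.gcd g k : ℝ) = g := by
    intro k
    have : g / Int.gcd g k * Int.gcd g k = g := Nat.div_mul_cancel (by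
      have := Int.gcd_dvd_left (g : ℤ) k
      exact_mod_cast this)
    exact_mod_cast this
  have e2 : ∀ k : ℤ, ((i k).2 : ℝ) * (Int.gcd g k : ℝ) = k := by
    intro k
    have : k / (Int.gcd g k : ℤ) * (Int.gcd g k : ℤ) = k :=
      Int.ediv_mul_cancel (Int.gcd_dvd_right (g : ℤ) k)
    exact_mod_cast this
  have hinj : Function.Injective i := by
    intro k l hkl
    have h1 := e1 k
    have h2 := e2 k
    have h3 := e1 l
    have h4 := e2 l
    rw [hkl] at h1 h2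
    have hk : (0 : ℝ) < Int.gcd g k := by exact_mod_cast hd0 k
    have hl : (0 : ℝ) < Int.gcd g l := by exact_mod_cast hd0 l
    have h5 : ((i l).1 : ℝ) ≠ 0 := by
      intro h
      rw [h, zero_mul] at h3
      linarith
    have h6 : (Int.gcd g k : ℝ) = Int.gcd g l := by
      have : ((i l).1 : ℝ) * (Int.gcd g k : ℝ) = ((i l).1 : ℝ) * (Int.gcd g l : ℝ) := by
        rw [h1, h3]
      exact mul_left_cancel₀ h5 this
    have h7 : (k : ℝ) = l := by rw [← h2, ← h4, h6]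
    exact_mod_cast h7
  have hle : ∀ k, term L s c g k ≤ ε / (∑' p, F p + 1) * F (i k) := by
    intro k
    unfold term
    split_ifs with hk
    · have := hF0 (i k)
      positivity
    · have hd : (0 : ℝ) < Int.gcd g k := by exact_mod_cast hd0 k
      have he : (1 : ℝ) ≤ ((i k).1 : ℝ) := by
        have : 1 ≤ g / Int.gcd g k := Nat.div_pos (Nat.le_of_dvd (by omega) (by
          have := Int.gcd_dvd_left (g : ℤ) k
          exact_mod_cast this)) (hd0 k)
        exact_mod_cast this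
      have hm : (1 : ℝ) ≤ |((i k).2 : ℝ)| := by
        have : (i k).2 ≠ 0 := by
          intro h
          have h2 := e2 k
          rw [h] at h2
          simp only [Int.cast_zero, zero_mul] at h2
          exact hk (by exact_mod_cast h2.symm)
        have := Int.one_le_abs this
        exact_mod_cast this
      have h := hsc _ _ he hm
      rw [sq_abs] at h
      have h1 : (g : ℝ) ^ 2 / ((g : ℝ) ^ 2 + (k : ℝ) ^ 2) =
          ((i k).1 : ℝ) ^ 2 / (((i k).1 : ℝ) ^ 2 + ((i k).2 : ℝ) ^ 2) := by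
        rw [← e1 k, ← e2 k, div_eq_div_iff (by positivity) (by positivity)]
        ring
      have h2 : 2 * (L : ℝ) * (Int.gcd g k : ℝ) / g = 2 * L / ((i k).1 : ℝ) := by
        rw [div_eq_div_iff (by positivity) (by positivity)]
        rw [mul_assoc (2 * (L : ℝ)), mul_comm (Int.gcd g k : ℝ), e1 k]
      rw [h1, h2]
      exact h
  have hnn : ∀ k, 0 ≤ term L s c g k := by
    intro k
    unfold term
    split_ifs
    · exact le_rfl
    · positivity
  have hsum : Summable fun k => ε / (∑' p, F p + 1) * F (i k) :=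
    (hFs.comp_injective hinj).mul_left _
  have hsm : Summable (term L s c g) := Summable.of_nonneg_of_le hnn hle hsum
  refine ⟨hsm, ?_⟩
  calc ∑' k, term L s c g k ≤ ∑' k, ε / (∑' p, F p + 1) * F (i k) :=
        hsm.tsum_le_tsum hle hsum
    _ = ε / (∑' p, F p + 1) * ∑' k, F (i k) := tsum_mul_left
    _ ≤ ε / (∑' p, F p + 1) * ∑' p, F p := by
        apply mul_le_mul_of_nonneg_left _ (by positivity)
        exact tsum_comp_le_tsum_of_inj hFs hF0 hinj
    _ ≤ ε := by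
        rw [div_mul_eq_mul_div, div_le_iff₀ (by positivity)]
        nlinarith

end Pool.Agent.H10.XR
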