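import Pool.Agent.H10.XR.Base
import Pool.Agent.H10.XR.Asy

/-!
# MP_4bc625_an: stretched exponential decay and comparability on circles
-/

set_option autoImplicit false

namespace Pool.Agent.H10.XR

open Filter

/-- `gcd z` is at most `lam |z|` times the least gcd of the points of the circle of `z`. -/
def Low (lam : ℝ → ℝ) (z : ℤ × ℤ) : Prop :=
  ∀ x, nsq x = nsq z → (cont z : ℝ) ≤ lam (Real.sqrt (nsq z)) * cont x

/-- `f x = O(exp (-|x| ^ θ))`. -/
def ExpDecay (θ : ℝ) (f : ℤ × ℤ → ℂ) : Prop :=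
  ∃ C : ℝ, ∀ z, ‖f z‖ ≤ C * Real.exp (-Real.sqrt (nsq z) ^ θ)

lemma pt_ne {g : ℕ} (hg : 0 < g) {p z : ℤ × ℤ} (hp : p ≠ 0)
    (h : z = ((g : ℤ) * p.1, (g : ℤ) * p.2)) (k : ℤ) : pt p z k ≠ 0 := by
  intro h0
  have h1 := nsq_pt h k
  rw [h0] at h1
  have h2 := nsq_pos hp
  have h3 : (0 : ℤ) < (g : ℤ) ^ 2 := by
    have : (0 : ℤ) < (g : ℤ) := by exact_mod_cast hg
    positivity
  have h4 : nsq (0 : ℤ × ℤ) = 0 := by simp [nsq]
  rw [h4] at h1
  nlinarith [mul_pos h2 h3, mul_nonneg h2.le (sq_nonneg k)]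

lemma nsq_pt' {g : ℕ} {p z : ℤ × ℤ} (h : z = ((g : ℤ) * p.1, (g : ℤ) * p.2)) (k : ℤ) :
    nsq (pt p z k) = nsq z + k ^ 2 * nsq p := by
  rw [nsq_pt h k]
  have : nsq z = nsq p * (g : ℤ) ^ 2 := by
    rw [h]
    unfold nsq
    ring
  rw [this]
  ring

lemma outside_pt {α : ℝ} {g : ℕ} {p z : ℤ × ℤ} (h : z = ((g : ℤ) * p.1, (g : ℤ) * p.2))
    (k : ℤ) (hz : Outside α z) : Outside α (pt p z k) := by
  unfold Outside at hz ⊢
  refine hz.trans (Real.sqrt_le_sqrt ?_)
  have h1 : nsq z ≤ nsq (pt p z k) := by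
    rw [nsq_pt' h k]
    have : 0 ≤ nsq p := by unfold nsq; positivity
    nlinarith [mul_nonneg (sq_nonneg k) this]
  exact_mod_cast h1

lemma exp_decay_sub {θ : ℝ} {f g : ℤ × ℤ → ℂ} (hf : ExpDecay θ f) (hg : ExpDecay θ g) :
    ExpDecay θ fun z => f z - g z := by
  obtain ⟨C, hC⟩ := hf
  obtain ⟨D, hD⟩ := hg
  refine ⟨C + D, fun z => ?_⟩
  calc ‖f z - g z‖ ≤ ‖f z‖ + ‖g z‖ := norm_sub_le _ _
    _ ≤ C * Real.exp (-Real.sqrt (nsq z) ^ θ) + D * Real.exp (-Real.sqrt (nsq z) ^ θ) :=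
        add_le_add (hC z) (hD z)
    _ = _ := by ring

/-- Stretched exponential decay implies polynomial decay. -/
lemma decay_of {θ : ℝ} (hθ : 0 < θ) {f : ℤ × ℤ → ℂ} (hf : ExpDecay θ f) (M : ℕ) :
    Decay M f := by
  obtain ⟨C, hC⟩ := hf
  have h1 : Tendsto (fun x : ℝ => x ^ M * Real.exp (-x ^ θ)) atTop (nhds 0) := by
    have h3 := (tendsto_rpow_mul_exp_neg_mul_atTop_nhds_zero (M / θ) 1
      (by norm_num)).comp (tendsto_rpow_atTop hθ)
    refine h3.congr' ?_
    filter_upwards [eventually_ge_atTop (0 : ℝ)] with x hx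
    simp only [Function.comp_apply]
    rw [← Real.rpow_mul hx, mul_div_cancel₀ _ hθ.ne', Real.rpow_natCast]
    congr 2
    ring
  obtain ⟨X, hX⟩ := eventually_atTop.1 (h1.eventually (gt_mem_nhds one_pos))
  refine ⟨|C| * (1 + |X| ^ M), fun z => ?_⟩
  set r : ℝ := Real.sqrt (nsq z) with hr
  have hr0 : 0 ≤ r := Real.sqrt_nonneg _
  have h2 : r ^ M * Real.exp (-r ^ θ) ≤ 1 + |X| ^ M := by
    rcases le_total X r with h | h
    · have := hX r h
      have h3 : 0 ≤ |X| ^ M := by positivity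
      linarith
    · have h3 : Real.exp (-r ^ θ) ≤ 1 := Real.exp_le_one_iff.2 (by
        have := Real.rpow_nonneg hr0 θ
        linarith)
      have h4 : r ^ M ≤ |X| ^ M := pow_le_pow_left₀ hr0 (h.trans (le_abs_self X)) M
      have h5 := mul_le_mul h4 h3 (Real.exp_pos _).le (by positivity)
      linarith
  calc ‖f z‖ * r ^ M ≤ |C| * Real.exp (-r ^ θ) * r ^ M := by
        apply mul_le_mul_of_nonneg_right _ (by positivity)
        exact (hC z).trans (mul_le_mul_of_nonneg_right (le_abs_self C) (Real.exp_pos _).le)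
    _ = |C| * (r ^ M * Real.exp (-r ^ θ)) := by ring
    _ ≤ |C| * (1 + |X| ^ M) := mul_le_mul_of_nonneg_left h2 (abs_nonneg _)

lemma low_zero {lam : ℝ → ℝ} : Low lam 0 := by
  intro x hx
  have hx0 : x = 0 := by
    by_contra h
    have h1 := nsq_pos h
    rw [hx] at h1
    simp [nsq] at h1
  subst hx0
  simp [cont]

lemma low_mg {lam : ℝ → ℝ} {z : ℤ × ℤ} (h : Low lam z) :
    (cont z : ℝ) ≤ lam (Real.sqrt (nsq z)) * mg (nsq z) := by
  obtain ⟨y, hy, hy2⟩ := mg_mem z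
  rw [← hy2]
  exact h y hy

lemma ne_zero_of_nsq {y z : ℤ × ℤ} (hz : z ≠ 0) (h : nsq y = nsq z) : y ≠ 0 := by
  rintro rfl
  have := nsq_pos hz
  rw [← h] at this
  simp [nsq] at this

lemma outside_of_nsq {α : ℝ} {y z : ℤ × ℤ} (hz : Outside α z) (h : nsq y = nsq z) :
    Outside α y := by
  unfold Outside at hz ⊢
  rw [h]
  exact hz

/-- If `h` vanishes at all points of large norm, it vanishes. -/
lemma down {w : ℤ × ℤ} {α : ℝ} {h : ℤ × ℤ → ℂ} {t : ℕ} (hd : Decay (2 * t) h) (ht : 1 ≤ t)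
    {P : ℤ × ℤ → Prop} (hx : ∀ z, z ≠ 0 → Outside α z → P z → xray w h z = 0)
    (hP : ∀ z, z ≠ 0 → Outside α z → ∃ y, nsq y = nsq z ∧ P y ∧ (h y = 0 → h z = 0)) {n0 : ℝ}
    (hfar : ∀ z, z ≠ 0 → Outside α z → n0 ≤ (nsq z : ℝ) → h z = 0) :
    ∀ z, z ≠ 0 → Outside α z → h z = 0 := by
  obtain ⟨N0, hN0⟩ := exists_nat_ge n0
  have hdown : ∀ j : ℕ, ∀ z, z ≠ 0 → Outside α z → ((N0 - j : ℕ) : ℤ) ≤ nsq z → h z = 0 := by
    intro j
    induction j with
    | zero =>
      intro z hz hzα hzN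
      refine hfar z hz hzα (hN0.trans ?_)
      exact_mod_cast hzN
    | succ j ih =>
      intro z hz hzα hzN
      by_cases hc : ((N0 - j : ℕ) : ℤ) ≤ nsq z
      · exact ih z hz hzα hc
      obtain ⟨y, hyz, hyP, hyh⟩ := hP z hz hzα
      have hy0 := ne_zero_of_nsq hz hyz
      have hyα := outside_of_nsq hzα hyz
      obtain ⟨p, hp, hyp⟩ := exists_prim hy0
      have hp0 : p ≠ 0 := by
        rintro rfl
        exact not_isCoprime_zero_zero hp
      obtain ⟨_, hle⟩ := norm_le hd ht hy0 hp hyp (hx y hy0 hyα hyP)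
      have hzero : ∀ k : ℤ, (if k = 0 then 0 else ‖h (pt p y k)‖) = 0 := by
        intro k
        split_ifs with hk
        · rfl
        · rw [norm_eq_zero]
          refine ih _ (pt_ne (cont_pos hy0) hp0 hyp k) (outside_pt hyp k hyα) ?_
          rw [nsq_pt' hyp k, hyz]
          have h1 : 1 ≤ k ^ 2 := by
            have := Int.one_le_abs hk
            nlinarith [sq_abs k]
          have h2 := nsq_pos hp0
          have h3 : 1 ≤ k ^ 2 * nsq p := by nlinarith
          omega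
      have h1 : ‖h y‖ ≤ 0 := by
        refine hle.trans (le_of_eq ?_)
        rw [show (fun k : ℤ => if k = 0 then 0 else ‖h (pt p y k)‖) = fun _ => 0 from
          funext hzero]
        exact tsum_zero
      exact hyh (norm_le_zero_iff.1 h1)
  intro z hz hzα
  refine hdown N0 z hz hzα ?_
  rw [Nat.sub_self]
  have := nsq_pos hz
  simpa using this.le

/-- The square of the least gcd is at most the norm. -/
lemma mg_sq_le {x : ℤ × ℤ} (hx : x ≠ 0) : ((mg (nsq x) : ℝ)) ^ 2 ≤ (nsq x : ℝ) := by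
  obtain ⟨p, hp, hxp⟩ := exists_prim hx
  have hp0 : p ≠ 0 := by
    rintro rfl
    exact not_isCoprime_zero_zero hp
  have h1 : nsq x = nsq p * (cont x : ℤ) ^ 2 := by
    conv_lhs => rw [hxp]
    unfold nsq
    ring
  have h2 : (1 : ℝ) ≤ (nsq p : ℝ) := by exact_mod_cast nsq_pos hp0
  have h3 : (mg (nsq x) : ℝ) ≤ (cont x : ℝ) := by exact_mod_cast mg_le x
  have h4 : (nsq x : ℝ) = (nsq p : ℝ) * (cont x : ℝ) ^ 2 := by
    rw [h1]
    push_cast
    ring
  calc (mg (nsq x) : ℝ) ^ 2 ≤ (cont x : ℝ) ^ 2 := pow_le_pow_left₀ (by positivity) h3 2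
    _ = 1 * (cont x : ℝ) ^ 2 := by ring
    _ ≤ (nsq p : ℝ) * (cont x : ℝ) ^ 2 := by gcongr
    _ = (nsq x : ℝ) := h4.symm

/-- Uniqueness for stretched exponential decay. -/
lemma stretched {θ θ' ρ K L : ℝ} (h0 : 0 ≤ θ') (hρ : 0 ≤ ρ) (hθ : θ' + 2 * ρ < θ)
    {w : ℤ × ℤ} {α : ℝ} {f : ℤ × ℤ → ℂ} (hf : ExpDecay θ f)
    (hx : ∀ z, z ≠ 0 → Outside α z → Low (fun r => L * r ^ ρ) z → xray w f z = 0)
    (hc : ∀ z, z ≠ 0 → Outside α z → ∃ y, nsq y = nsq z ∧ Low (fun r => L * r ^ ρ) y ∧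
      ‖f z‖ ≤ K * Real.exp (Real.sqrt (nsq z) ^ θ') * ‖f y‖) :
    ∀ z, z ≠ 0 → Outside α z → f z = 0 := by
  have hθ0 : 0 < θ := by linarith
  have hd : Decay (2 * 1) f := decay_of hθ0 hf _
  set d : ℝ := (θ - θ' - 2 * ρ) / 2 with hddef
  have hd0 : 0 < d := by rw [hddef]; linarith
  set γ : ℝ := θ' / 2 + d / 5 with hγdef
  set β : ℝ := θ / 2 - d / 5 with hβdef
  set r : ℝ := ρ + d / 5 with hrdef
  have hγ : 0 < γ := by rw [hγdef]; linarith
  have hr : 0 ≤ r := by rw [hrdef]; linarith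
  have hsum : γ + r < β := by rw [hγdef, hβdef, hrdef]; linarith
  have hβ : 0 < β := by linarith
  have hη : 0 < d / 10 := by linarith
  set S : ℝ := ∑' m : ℤ, 1 / (m : ℝ) ^ 2 with hSdef
  have hS : Summable fun m : ℤ => 1 / (m : ℝ) ^ 2 :=
    Real.summable_one_div_int_pow.2 (by norm_num)
  have hS0 : 0 ≤ S := tsum_nonneg fun m => by positivity
  obtain ⟨n0, hn0⟩ := eventually_atTop.1 ((eventually_ge_atTop (1 : ℝ)).and
    ((gainA hγ hr hsum).and ((gainB hγ (show γ < β by linarith) hη (2 * L)).and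
    ((ev_exp (p := θ' / 2) hγ (show θ' / 2 < γ by linarith) (|K| * S) (show (0 : ℝ) < 1 / 2 by
      norm_num)).and
    (ev_exp (p := β) (q := θ / 2) (by linarith) (by linarith) 1 one_pos)))))
  -- the contraction
  have hcon : ∀ B : ℝ, 0 ≤ B → (∀ z, z ≠ 0 → Outside α z → n0 ≤ (nsq z : ℝ) →
      ‖f z‖ * nsq z ≤ B * Real.exp (-G β γ (nsq z) (mg (nsq z)))) →
      ∀ z, z ≠ 0 → Outside α z → n0 ≤ (nsq z : ℝ) →
      ‖f z‖ * nsq z ≤ B / 2 * Real.exp (-G β γ (nsq z) (mg (nsq z))) := by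
    intro B hB hb z hz hzα hzn
    obtain ⟨hn1, hgA, hgB, hK, _⟩ := hn0 _ hzn
    obtain ⟨y, hyz, hyL, hyK⟩ := hc z hz hzα
    have hyg := low_mg hyL
    simp only [hyz] at hyg
    have hy0 : y ≠ 0 := ne_zero_of_nsq hz hyz
    have hyα : Outside α y := outside_of_nsq hzα hyz
    obtain ⟨p, hp, hyp⟩ := exists_prim hy0
    have hp0 : p ≠ 0 := by
      rintro rfl
      exact not_isCoprime_zero_zero hp
    obtain ⟨hsm, hle⟩ := norm_le hd le_rfl hy0 hp hyp (hx y hy0 hyα hyL)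
    set n : ℝ := (nsq z : ℝ) with hn
    have hnpos : 0 < n := by linarith
    have hg : 0 < cont y := cont_pos hy0
    have hgR : (0 : ℝ) < (cont y : ℝ) := by exact_mod_cast hg
    have hP1 : (1 : ℝ) ≤ (nsq p : ℝ) := by exact_mod_cast nsq_pos hp0
    have hny : n = nsq p * (cont y : ℝ) ^ 2 := by
      have : nsq y = nsq p * (cont y : ℤ) ^ 2 := by
        conv_lhs => rw [hyp]
        unfold nsq
        ring
      rw [hn, ← hyz, this]
      push_cast
      ring
    set m : ℝ := (mg (nsq z) : ℝ) with hm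
    have hm1 : 1 ≤ m := by
      rw [hm]
      exact_mod_cast mg_pos hz
    have hmn : m ^ 2 ≤ n := mg_sq_le hz
    have hterm : ∀ k : ℤ, (if k = 0 then 0 else ‖f (pt p y k)‖) * n ≤
        B * Real.exp (-G β γ n m) * Real.exp (-n ^ γ) * n * (1 / (k : ℝ) ^ 2) := by
      intro k
      split_ifs with hk
      · rw [zero_mul]
        positivity
      have hk2 : (1 : ℝ) ≤ (k : ℝ) ^ 2 := by
        have : (1 : ℤ) ≤ k ^ 2 := by
          have := Int.one_le_abs hk
          nlinarith [sq_abs k]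
        exact_mod_cast this
      have hq : (nsq (pt p y k) : ℝ) = n + (k : ℝ) ^ 2 * (nsq p : ℝ) := by
        rw [nsq_pt' hyp k, hyz]
        push_cast
        ring
      set t : ℝ := (k : ℝ) ^ 2 / (cont y : ℝ) ^ 2 with ht
      have ht0 : 0 ≤ t := by positivity
      have hq2 : (nsq (pt p y k) : ℝ) = n * (1 + t) := by
        rw [hq, ht, hny]
        field_simp
      have hne := pt_ne hg hp0 hyp k
      have hout := outside_pt hyp k hyα
      have hqn : n ≤ (nsq (pt p y k) : ℝ) := by rw [hq]; nlinarith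
      set m' : ℝ := (mg (nsq (pt p y k)) : ℝ) with hm'
      have hm'1 : 1 ≤ m' := by
        rw [hm']
        exact_mod_cast mg_pos hne
      have hgcd : m' ≤ 2 * (Int.gcd (cont y) k : ℝ) := by
        rw [hm']
        exact_mod_cast mg_pt hg hp hyp k
      have hgk : (Int.gcd (cont y) k : ℝ) ^ 2 ≤ (k : ℝ) ^ 2 := by
        have h1 : (Int.gcd (cont y) k : ℤ) ≤ |k| :=
          Int.le_of_dvd (abs_pos.2 hk) ((dvd_abs _ _).2 (Int.gcd_dvd_right _ _))
        have h2 : (Int.gcd (cont y) k : ℝ) ≤ |(k : ℝ)| := by exact_mod_cast h1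
        rw [← sq_abs (k : ℝ)]
        exact pow_le_pow_left₀ (by positivity) h2 2
      -- the gain of the potential
      have hgain : G β γ n m + n ^ γ ≤ G β γ (nsq (pt p y k)) m' := by
        rw [hq2]
        rcases le_or_gt ((cont y : ℝ)) (Int.gcd (cont y) k * n ^ (r / 2)) with hA | hA
        · refine hgA t m m' ?_ hm1 hm'1 ?_
          · rw [ht, le_div_iff₀ (by positivity)]
            have h1 : (cont y : ℝ) ^ 2 ≤ (k : ℝ) ^ 2 * n ^ r := by
              calc (cont y : ℝ) ^ 2 ≤ ((Int.gcd (cont y) k : ℝ) * n ^ (r / 2)) ^ 2 :=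
                    pow_le_pow_left₀ hgR.le hA 2
                _ = (Int.gcd (cont y) k : ℝ) ^ 2 * n ^ r := by
                    rw [mul_pow, ← Real.rpow_natCast (n ^ (r / 2)) 2, ← Real.rpow_mul hnpos.le]
                    norm_num
                _ ≤ (k : ℝ) ^ 2 * n ^ r := by gcongr
            calc n ^ (-r) * (cont y : ℝ) ^ 2 ≤ n ^ (-r) * ((k : ℝ) ^ 2 * n ^ r) := by gcongr
              _ = (k : ℝ) ^ 2 * (n ^ (-r) * n ^ r) := by ring
              _ = (k : ℝ) ^ 2 := by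
                  rw [← Real.rpow_add hnpos, neg_add_cancel, Real.rpow_zero, mul_one]
          · rw [← hq2]
            exact mg_sq_le hne
        · refine hgB t m m' ht0 hm1 hmn hm'1 ?_
          have h1 : (Int.gcd (cont y) k : ℝ) ≤ (cont y : ℝ) * n ^ (-(r / 2)) := by
            rw [Real.rpow_neg hnpos.le, ← div_eq_mul_inv, le_div_iff₀ (by positivity)]
            exact hA.le
          have h2 : Real.sqrt n ^ ρ = n ^ (ρ / 2) := by
            rw [Real.sqrt_eq_rpow, ← Real.rpow_mul hnpos.le]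
            congr 1
            ring
          have h3 : n ^ (ρ / 2) * n ^ (-(r / 2)) = n ^ (-(d / 10)) := by
            rw [← Real.rpow_add hnpos]
            congr 1
            rw [hrdef]
            ring
          calc m' ≤ 2 * (Int.gcd (cont y) k : ℝ) := hgcd
            _ ≤ 2 * ((cont y : ℝ) * n ^ (-(r / 2))) := by gcongr
            _ ≤ 2 * ((L * Real.sqrt n ^ ρ * m) * n ^ (-(r / 2))) := by gcongr
            _ = 2 * L * (n ^ (ρ / 2) * n ^ (-(r / 2))) * m := by rw [h2]; ring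
            _ = 2 * L * n ^ (-(d / 10)) * m := by rw [h3]
      have h1 := hb _ hne hout (hzn.trans hqn)
      have hqpos : 0 < (nsq (pt p y k) : ℝ) := by linarith
      have h2 : Real.exp (-G β γ (nsq (pt p y k)) m') ≤
          Real.exp (-G β γ n m) * Real.exp (-n ^ γ) := by
        rw [← Real.exp_add]
        apply Real.exp_le_exp.2
        linarith
      have h3 : ‖f (pt p y k)‖ ≤
          B * (Real.exp (-G β γ n m) * Real.exp (-n ^ γ)) / (nsq (pt p y k) : ℝ) := by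
        rw [le_div_iff₀ hqpos]
        exact h1.trans (mul_le_mul_of_nonneg_left h2 hB)
      have h4 : (k : ℝ) ^ 2 ≤ (nsq (pt p y k) : ℝ) := by rw [hq]; nlinarith
      calc ‖f (pt p y k)‖ * n
          ≤ B * (Real.exp (-G β γ n m) * Real.exp (-n ^ γ)) / (nsq (pt p y k) : ℝ) * n := by
            gcongr
        _ ≤ B * (Real.exp (-G β γ n m) * Real.exp (-n ^ γ)) / (k : ℝ) ^ 2 * n := by
            gcongr
        _ = B * Real.exp (-G β γ n m) * Real.exp (-n ^ γ) * n * (1 / (k : ℝ) ^ 2) := by ring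
    have hsumle : (∑' k : ℤ, if k = 0 then 0 else ‖f (pt p y k)‖) * n ≤
        B * Real.exp (-G β γ n m) * Real.exp (-n ^ γ) * n * S := by
      rw [← tsum_mul_right, ← tsum_mul_left]
      exact (hsm.mul_right _).tsum_le_tsum hterm (hS.mul_left _)
    have hsq : Real.sqrt n ^ θ' = n ^ (θ' / 2) := by
      rw [Real.sqrt_eq_rpow, ← Real.rpow_mul hnpos.le]
      congr 1
      ring
    have hA0 : 0 ≤ B * Real.exp (-G β γ n m) * Real.exp (-n ^ γ) * n * S := by positivity
    calc ‖f z‖ * n ≤ K * Real.exp (Real.sqrt n ^ θ') * ‖f y‖ * n := by gcongr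
      _ ≤ |K| * Real.exp (Real.sqrt n ^ θ') * ‖f y‖ * n := by
          gcongr
          exact le_abs_self K
      _ = |K| * Real.exp (Real.sqrt n ^ θ') * (‖f y‖ * n) := by ring
      _ ≤ |K| * Real.exp (Real.sqrt n ^ θ') *
          (B * Real.exp (-G β γ n m) * Real.exp (-n ^ γ) * n * S) := by
          apply mul_le_mul_of_nonneg_left _ (by positivity)
          exact (mul_le_mul_of_nonneg_right hle hnpos.le).trans hsumle
      _ = B * Real.exp (-G β γ n m) *
          (|K| * S * n * (Real.exp (n ^ (θ' / 2)) * Real.exp (-n ^ γ))) := by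
          rw [hsq]
          ring
      _ = B * Real.exp (-G β γ n m) * (|K| * S * n * Real.exp (n ^ (θ' / 2) - n ^ γ)) := by
          rw [← Real.exp_add, sub_eq_add_neg]
      _ ≤ B * Real.exp (-G β γ n m) * (1 / 2) :=
          mul_le_mul_of_nonneg_left hK (by positivity)
      _ = B / 2 * Real.exp (-G β γ n m) := by ring
  -- the first bound
  obtain ⟨C, hC⟩ := hf
  have hstart : ∀ z, z ≠ 0 → Outside α z → n0 ≤ (nsq z : ℝ) →
      ‖f z‖ * nsq z ≤ |C| * Real.exp (-G β γ (nsq z) (mg (nsq z))) := by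
    intro z hz _ hzn
    obtain ⟨hn1, _, _, _, hE⟩ := hn0 _ hzn
    set n : ℝ := (nsq z : ℝ) with hn
    have hnpos : 0 < n := by linarith
    have hsq : Real.sqrt n ^ θ = n ^ (θ / 2) := by
      rw [Real.sqrt_eq_rpow, ← Real.rpow_mul hnpos.le]
      congr 1
      ring
    have hm1 : (1 : ℝ) ≤ (mg (nsq z) : ℝ) := by exact_mod_cast mg_pos hz
    have hG : G β γ n (mg (nsq z)) ≤ n ^ β := by
      unfold G
      have := mul_nonneg (Real.rpow_nonneg hnpos.le γ) (Real.log_nonneg hm1)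
      linarith
    have h1 : Real.exp (-n ^ (θ / 2)) * n ≤ Real.exp (-n ^ β) := by
      have h2 : Real.exp (-n ^ (θ / 2)) = Real.exp (n ^ β - n ^ (θ / 2)) * Real.exp (-n ^ β) := by
        rw [← Real.exp_add]
        congr 1
        ring
      rw [h2]
      calc Real.exp (n ^ β - n ^ (θ / 2)) * Real.exp (-n ^ β) * n
          = (1 * n * Real.exp (n ^ β - n ^ (θ / 2))) * Real.exp (-n ^ β) := by ring
        _ ≤ 1 * Real.exp (-n ^ β) := mul_le_mul_of_nonneg_right hE (Real.exp_pos _).le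
        _ = _ := one_mul _
    calc ‖f z‖ * n ≤ C * Real.exp (-Real.sqrt n ^ θ) * n :=
          mul_le_mul_of_nonneg_right (hC z) hnpos.le
      _ ≤ |C| * Real.exp (-Real.sqrt n ^ θ) * n := by
          gcongr
          exact le_abs_self C
      _ = |C| * (Real.exp (-n ^ (θ / 2)) * n) := by rw [hsq]; ring
      _ ≤ |C| * Real.exp (-n ^ β) := mul_le_mul_of_nonneg_left h1 (abs_nonneg _)
      _ ≤ |C| * Real.exp (-G β γ n (mg (nsq z))) := by
          apply mul_le_mul_of_nonneg_left _ (abs_nonneg _)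
          exact Real.exp_le_exp.2 (by linarith)
  have hiter : ∀ j : ℕ, ∀ z, z ≠ 0 → Outside α z → n0 ≤ (nsq z : ℝ) →
      ‖f z‖ * nsq z ≤ |C| / 2 ^ j * Real.exp (-G β γ (nsq z) (mg (nsq z))) := by
    intro j
    induction j with
    | zero => simpa using hstart
    | succ j ih =>
      intro z hz hzα hzn
      have := hcon (|C| / 2 ^ j) (by positivity) ih z hz hzα hzn
      rwa [div_div, ← pow_succ] at this
  refine down hd le_rfl hx (fun z hz hzα => ?_) (n0 := n0) fun z hz hzα hzn => ?_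
  · obtain ⟨y, hyz, hyL, hyK⟩ := hc z hz hzα
    refine ⟨y, hyz, hyL, fun h => ?_⟩
    rw [h, norm_zero, mul_zero] at hyK
    exact norm_le_zero_iff.1 hyK
  have hlim : Tendsto (fun j : ℕ => |C| / 2 ^ j * Real.exp (-G β γ (nsq z) (mg (nsq z))))
      atTop (nhds (0 * Real.exp (-G β γ (nsq z) (mg (nsq z))))) := by
    apply Tendsto.mul_const
    have h1 := (tendsto_pow_atTop_nhds_zero_of_lt_one (show (0 : ℝ) ≤ 1 / 2 by norm_num)
      (by norm_num)).const_mul |C|
    rw [mul_zero] at h1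
    refine h1.congr fun j => ?_
    rw [one_div, inv_pow, div_eq_mul_inv]
  have h1 := ge_of_tendsto' hlim fun j => hiter j z hz hzα hzn
  rw [zero_mul] at h1
  have h2 : (0 : ℝ) < (nsq z : ℝ) := by exact_mod_cast nsq_pos hz
  have h3 : ‖f z‖ ≤ 0 := by
    by_contra hcon
    exact absurd h1 (not_le.2 (mul_pos (not_le.1 hcon) h2))
  exact norm_le_zero_iff.1 h3

end Pool.Agent.H10.XR
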